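import Pool.Agent.Q49.TL.Alg
import Mathlib.FieldTheory.SeparablyGenerated
import Mathlib.FieldTheory.Minpoly.IsIntegrallyClosed
import Mathlib.FieldTheory.PrimitiveElement

/-! # JOB TL-PRIM: reduction of affine varieties to hypersurfaces -/

set_option autoImplicit false

namespace Pool.Agent.Q210.TL

open MvPolynomial Pool.Agent.Q49.TL

section general

variable {κ A E K : Type} [Field κ] [CommRing A] [IsDomain A] [Field E] [Field K] [Algebra κ A] [Algebra κ K]
  [Algebra A E] [IsFractionRing A E] [Algebra A K] [Algebra E K] [IsScalarTower A E K] [IsScalarTower κ A K]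

/-- clearing denominators -/
theorem clear {θ : K} {x : K} (hx : x ∈ Algebra.adjoin E {θ}) :
    ∃ (q : A) (p : Polynomial A), q ≠ 0 ∧ algebraMap A K q * x = Polynomial.aeval θ p := by
  induction hx using Algebra.adjoin_induction with
  | mem y hy =>
    rw [Set.mem_singleton_iff] at hy
    subst hy
    exact ⟨1, Polynomial.X, one_ne_zero, by simp⟩
  | algebraMap e =>
    obtain ⟨a, b, hb, rfl⟩ := IsFractionRing.div_surjective (A := A) e
    have hb0 : b ≠ 0 := nonZeroDivisors.ne_zero hb
    refine ⟨b, Polynomial.C a, hb0, ?_⟩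
    rw [Polynomial.aeval_C, map_div₀, ← IsScalarTower.algebraMap_apply, ← IsScalarTower.algebraMap_apply]
    have h2 : algebraMap A K b ≠ 0 := by
      rw [IsScalarTower.algebraMap_apply A E K]
      intro h
      exact hb0 ((IsFractionRing.injective A E) (by
        rw [map_zero]
        exact (algebraMap E K).injective (by rw [h, map_zero])))
    rw [mul_div_cancel₀ _ h2]
  | add y z _ _ hy hz =>
    obtain ⟨q1, p1, h1, e1⟩ := hy
    obtain ⟨q2, p2, h2, e2⟩ := hz
    refine ⟨q1 * q2, Polynomial.C q2 * p1 + Polynomial.C q1 * p2, mul_ne_zero h1 h2, ?_⟩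
    simp only [map_add, map_mul, Polynomial.aeval_C, ← e1, ← e2]
    ring
  | mul y z _ _ hy hz =>
    obtain ⟨q1, p1, h1, e1⟩ := hy
    obtain ⟨q2, p2, h2, e2⟩ := hz
    refine ⟨q1 * q2, p1 * p2, mul_ne_zero h1 h2, ?_⟩
    simp only [map_mul, ← e1, ← e2]
    ring

/-- a common denominator -/
theorem clear_fin {ι : Type} [Finite ι] {θ : K} (hθ : Algebra.adjoin E {θ} = ⊤) (t : ι → K) (u : K) :
    ∃ (Q : A) (p : ι → Polynomial A) (G : Polynomial A), Q ≠ 0 ∧
      (∀ i, algebraMap A K Q * t i = Polynomial.aeval θ (p i)) ∧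
      algebraMap A K Q * u = Polynomial.aeval θ G := by
  classical
  cases nonempty_fintype ι
  have h : ∀ x : K, ∃ (q : A) (p : Polynomial A), q ≠ 0 ∧ algebraMap A K q * x = Polynomial.aeval θ p :=
    fun x => clear (E := E) (by rw [hθ]; exact Algebra.mem_top)
  choose q p hq hp using h
  refine ⟨(∏ i, q (t i)) * q u, fun i => Polynomial.C ((∏ j ∈ Finset.univ.erase i, q (t j)) * q u) * p (t i),
    Polynomial.C (∏ i, q (t i)) * p u, ?_, ?_, ?_⟩
  · exact mul_ne_zero (Finset.prod_ne_zero_iff.2 fun i _ => hq _) (hq _)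
  · intro i
    rw [← Finset.mul_prod_erase Finset.univ (fun j => q (t j)) (Finset.mem_univ i)]
    simp only [map_mul, Polynomial.aeval_C, ← hp]
    ring
  · simp only [map_mul, Polynomial.aeval_C, ← hp]
    ring

/-- evaluation of polynomials in the generators -/
theorem homog {ι : Type} {θ : K} (t : ι → K) (Q : A) (p : ι → Polynomial A)
    (hp : ∀ i, algebraMap A K Q * t i = Polynomial.aeval θ (p i)) (ev : Polynomial A →ₐ[κ] κ)
    (hQ : ev (Polynomial.C Q) ≠ 0) (h : MvPolynomial ι κ) :
    ∃ (M : ℕ) (H : Polynomial A), algebraMap A K Q ^ M * aeval t h = Polynomial.aeval θ H ∧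
      ev (Polynomial.C Q) ^ M * eval (fun i => ev (p i) / ev (Polynomial.C Q)) h = ev H := by
  induction h using MvPolynomial.induction_on with
  | C a =>
    refine ⟨0, Polynomial.C (algebraMap κ A a), ?_, ?_⟩
    · rw [pow_zero, one_mul, aeval_C, Polynomial.aeval_C, ← IsScalarTower.algebraMap_apply]
    · rw [pow_zero, one_mul, eval_C]
      have : Polynomial.C (algebraMap κ A a) = algebraMap κ (Polynomial A) a := rfl
      rw [this, AlgHom.commutes]
      rfl
  | add f g hf hg =>
    obtain ⟨M1, H1, e1, v1⟩ := hf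
    obtain ⟨M2, H2, e2, v2⟩ := hg
    refine ⟨M1 + M2, Polynomial.C Q ^ M2 * H1 + Polynomial.C Q ^ M1 * H2, ?_, ?_⟩
    · rw [map_add, map_add, map_mul, map_mul, map_pow, map_pow, Polynomial.aeval_C, ← e1, ← e2]
      ring
    · rw [map_add, map_add, map_mul, map_mul, map_pow, map_pow, ← v1, ← v2]
      ring
  | mul_X f i hf =>
    obtain ⟨M, H, e, v⟩ := hf
    refine ⟨M + 1, H * p i, ?_, ?_⟩
    · rw [map_mul, aeval_X, map_mul, ← e, ← hp i]
      ring
    · rw [map_mul, eval_X, map_mul, ← v]
      field_simp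
      ring

end general

theorem main (κ : Type) [Field κ] (ι : Type) [Finite ι] (K : Type) [Field K] [Algebra κ K] (t : ι → K)
    (r : ℕ) [Algebra (MvPolynomial (Fin r) κ) K] [Algebra (FractionRing (MvPolynomial (Fin r) κ)) K]
    [IsScalarTower κ (MvPolynomial (Fin r) κ) K]
    [IsScalarTower (MvPolynomial (Fin r) κ) (FractionRing (MvPolynomial (Fin r) κ)) K]
    [FiniteDimensional (FractionRing (MvPolynomial (Fin r) κ)) K]
    [Algebra.IsSeparable (FractionRing (MvPolynomial (Fin r) κ)) K]
    (g : MvPolynomial ι κ) (hg : aeval t g ≠ 0)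
    (hcon : ∀ z : K, IsAlgebraic κ z → z ∈ (algebraMap κ K).range) :
    ∃ (f : Polynomial (MvPolynomial (Fin r) κ)) (D : MvPolynomial (Fin r) κ),
    Hyp κ (MvPolynomial (Fin r) κ) (FractionRing (MvPolynomial (Fin r) κ)) f ∧ D ≠ 0 ∧
    ∀ (c : Fin r → κ) (y : κ), eval c (f.eval (C y)) = 0 → eval c D ≠ 0 →
      ∃ x : ι → κ, (∀ h : MvPolynomial ι κ, aeval t h = 0 → eval x h = 0) ∧ eval x g ≠ 0 := by
  classical
  set A := MvPolynomial (Fin r) κ with hA
  set E := FractionRing A with hE
  have hinj : Function.Injective (algebraMap A K) := by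
    rw [IsScalarTower.algebraMap_eq A E K]
    exact (algebraMap E K).injective.comp (IsFractionRing.injective A E)
  have : IsScalarTower κ E K := by
    refine IsScalarTower.of_algebraMap_eq fun x => ?_
    rw [IsScalarTower.algebraMap_apply κ A E, ← IsScalarTower.algebraMap_apply A E K,
      ← IsScalarTower.algebraMap_apply]
  have : FaithfulSMul A K := (faithfulSMul_iff_algebraMap_injective A K).2 hinj
  -- primitive element
  obtain ⟨θ₀, hθ₀⟩ := Field.exists_primitive_element E K
  have halg : IsAlgebraic A θ₀ := by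
    have h1 : IsAlgebraic E θ₀ := Algebra.IsAlgebraic.isAlgebraic θ₀
    exact (IsFractionRing.isAlgebraic_iff A E K).2 h1
  obtain ⟨b, hb, hint⟩ := halg.exists_integral_multiple
  set θ := b • θ₀ with hθ
  have hbK : algebraMap A K b ≠ 0 := fun h => hb (hinj (by rw [h, map_zero]))
  have hbE : algebraMap A E b ≠ 0 := fun h => hb ((IsFractionRing.injective A E) (by rw [h, map_zero]))
  have htopI : IntermediateField.adjoin E {θ} = ⊤ := by
    rw [eq_top_iff, ← hθ₀, IntermediateField.adjoin_simple_le_iff]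
    have e : θ₀ = (algebraMap A E b)⁻¹ • θ := by
      rw [hθ, Algebra.smul_def, Algebra.smul_def, map_inv₀, ← IsScalarTower.algebraMap_apply]
      field_simp
    rw [e]
    exact IntermediateField.smul_mem _ (IntermediateField.mem_adjoin_simple_self E θ)
  have hintE : IsIntegral E θ := Algebra.IsIntegral.isIntegral θ
  have htop : Algebra.adjoin E {θ} = ⊤ := by
    have h1 := IntermediateField.adjoin_simple_toSubalgebra_of_isAlgebraic (F := E) hintE.isAlgebraic
    rw [htopI, IntermediateField.top_toSubalgebra] at h1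
    exact h1.symm
  obtain ⟨Q, p, G, hQ, hp, hG⟩ := clear_fin (A := A) htop t (aeval t g)⁻¹
  have hmp : minpoly E θ = (minpoly A θ).map (algebraMap A E) :=
    minpoly.isIntegrallyClosed_eq_field_fractions' E hint
  refine ⟨minpoly A θ, Q, ⟨minpoly.monic hint, ?_, ?_, ?_⟩, hQ, ?_⟩
  · rw [← hmp]
    exact minpoly.irreducible hintE
  · rw [← hmp]
    exact Algebra.IsSeparable.isSeparable E θ
  · intro z hz
    let φ : AdjoinRoot ((minpoly A θ).map (algebraMap A E)) →ₐ[E] K :=
      AdjoinRoot.liftAlgHom _ (Algebra.ofId E K) θ (by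
        rw [← hmp]
        exact minpoly.aeval E θ)
    have : Fact (Irreducible ((minpoly A θ).map (algebraMap A E))) := ⟨by
      rw [← hmp]
      exact minpoly.irreducible hintE⟩
    have hφ : Function.Injective φ := φ.toRingHom.injective
    have h1 : IsAlgebraic κ (φ z) := by
      have := hz.algHom (φ.restrictScalars κ)
      exact this
    obtain ⟨c, hc⟩ := hcon _ h1
    refine ⟨c, hφ ?_⟩
    rw [← hc]
    exact (φ.restrictScalars κ).commutes c
  · intro c y hf hD
    let ev : Polynomial A →ₐ[κ] κ := (aeval c : A →ₐ[κ] κ).comp ((Polynomial.aeval (C y : A) : Polynomial A →ₐ[A] A).restrictScalars κ)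
    have hev : ∀ s : Polynomial A, ev s = eval c (s.eval (C y)) := by
      intro s
      show aeval c (Polynomial.aeval (C y : A) s) = _
      rw [Polynomial.coe_aeval_eq_eval]
      exact RingHom.congr_fun (coe_aeval_eq_eval c) _
    have hevQ : ev (Polynomial.C Q) = eval c Q := by
      rw [hev, Polynomial.eval_C]
    have hQ0 : ev (Polynomial.C Q) ≠ 0 := by rw [hevQ]; exact hD
    have hker : ∀ s : Polynomial A, Polynomial.aeval θ s = 0 → ev s = 0 := by
      intro s hs
      obtain ⟨w, rfl⟩ := minpoly.isIntegrallyClosed_dvd hint hs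
      rw [map_mul, hev (minpoly A θ), hf, zero_mul]
    refine ⟨fun i => ev (p i) / ev (Polynomial.C Q), ?_, ?_⟩
    · intro h hh
      obtain ⟨M, H, e, v⟩ := homog t Q p hp ev hQ0 h
      rw [hh, mul_zero] at e
      rw [hker H e.symm] at v
      exact (mul_eq_zero.1 v).resolve_left (pow_ne_zero _ hQ0)
    · obtain ⟨M, H, e, v⟩ := homog t Q p hp ev hQ0 g
      have h1 : Polynomial.aeval θ (H * G - Polynomial.C Q ^ (M + 1)) = 0 := by
        rw [map_sub, map_mul, ← e, ← hG, map_pow, Polynomial.aeval_C]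
        field_simp
        ring
      have h2 := hker _ h1
      rw [map_sub, map_mul, map_pow, sub_eq_zero] at h2
      intro h3
      rw [h3, mul_zero] at v
      rw [← v, zero_mul] at h2
      exact pow_ne_zero _ hQ0 h2.symm

theorem main2 (κ : Type) [Field κ] [PerfectField κ] (ι : Type) [Finite ι] (K : Type) [Field K] [Algebra κ K]
    [Algebra.EssFiniteType κ K] (t : ι → K) (g : MvPolynomial ι κ) (hg : aeval t g ≠ 0)
    (hcon : ∀ z : K, IsAlgebraic κ z → z ∈ (algebraMap κ K).range) :
    ∃ (r : ℕ) (f : Polynomial (MvPolynomial (Fin r) κ)) (D : MvPolynomial (Fin r) κ),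
    Hyp κ (MvPolynomial (Fin r) κ) (FractionRing (MvPolynomial (Fin r) κ)) f ∧ D ≠ 0 ∧
    ∀ (c : Fin r → κ) (y : κ), eval c (f.eval (C y)) = 0 → eval c D ≠ 0 →
      ∃ x : ι → κ, (∀ h : MvPolynomial ι κ, aeval t h = 0 → eval x h = 0) ∧ eval x g ≠ 0 := by
  classical
  obtain ⟨s, hs, hsep⟩ := exists_isTranscendenceBasis_and_isSeparable_of_perfectField κ K
  let v : Fin s.card → K := fun i => (s.equivFin.symm i : K)
  have hv : AlgebraicIndependent κ v := hs.1.comp s.equivFin.symm s.equivFin.symm.injective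
  have hrange : Set.range v = (s : Set K) := by
    ext x
    constructor
    · rintro ⟨i, rfl⟩
      exact (s.equivFin.symm i).2
    · intro hx
      exact ⟨s.equivFin ⟨x, hx⟩, by simp [v]⟩
  have hfin : FiniteDimensional (IntermediateField.adjoin κ (s : Set K)) K := by
    have : Algebra.EssFiniteType (IntermediateField.adjoin κ (s : Set K)) K :=
      Algebra.EssFiniteType.of_comp κ _ K
    exact Algebra.finite_of_essFiniteType_of_isAlgebraic
  rw [← hrange] at hsep hfin
  let e := hv.aevalEquivField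
  let algE : Algebra (FractionRing (MvPolynomial (Fin s.card) κ)) K :=
    ((algebraMap (IntermediateField.adjoin κ (Set.range v)) K).comp
    (e : FractionRing (MvPolynomial (Fin s.card) κ) →+* IntermediateField.adjoin κ (Set.range v))).toAlgebra
  let algA : Algebra (MvPolynomial (Fin s.card) κ) K :=
    (aeval v : MvPolynomial (Fin s.card) κ →ₐ[κ] K).toRingHom.toAlgebra
  have t1 : IsScalarTower κ (MvPolynomial (Fin s.card) κ) K := IsScalarTower.of_algebraMap_eq fun x => by
    show algebraMap κ K x = aeval v (algebraMap κ _ x)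
    rw [AlgHom.commutes]
  have t2 : IsScalarTower (MvPolynomial (Fin s.card) κ) (FractionRing (MvPolynomial (Fin s.card) κ)) K :=
    IsScalarTower.of_algebraMap_eq fun x => by
    show aeval v x = algebraMap (IntermediateField.adjoin κ (Set.range v)) K (e (algebraMap _ _ x))
    exact (hv.aevalEquivField_algebraMap_apply_coe x).symm
  have hcomm : (algebraMap (FractionRing (MvPolynomial (Fin s.card) κ)) K).comp
      (e.symm.toRingEquiv : IntermediateField.adjoin κ (Set.range v) →+* FractionRing (MvPolynomial (Fin s.card) κ)) =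
      ((RingEquiv.refl K : K ≃+* K) : K →+* K).comp (algebraMap (IntermediateField.adjoin κ (Set.range v)) K) := by
    ext x
    show algebraMap (IntermediateField.adjoin κ (Set.range v)) K (e (e.symm x)) = _
    rw [AlgEquiv.apply_symm_apply]
    rfl
  have f1 : FiniteDimensional (FractionRing (MvPolynomial (Fin s.card) κ)) K :=
    Module.Finite.of_equiv_equiv e.symm.toRingEquiv (RingEquiv.refl K) hcomm
  have f2 : Algebra.IsSeparable (FractionRing (MvPolynomial (Fin s.card) κ)) K :=
    Algebra.IsSeparable.of_equiv_equiv e.symm.toRingEquiv (RingEquiv.refl K) hcomm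
  exact ⟨s.card, main κ ι K t s.card g hg hcon⟩

theorem prim : S_PRIM := by
  classical
  intro κ _ _ ι _ P hP g hg hcon
  let t : ι → FractionRing (MvPolynomial ι κ ⧸ P) :=
    fun i => algebraMap (MvPolynomial ι κ ⧸ P) (FractionRing (MvPolynomial ι κ ⧸ P)) (Ideal.Quotient.mk P (X i))
  have ht : ∀ h : MvPolynomial ι κ, aeval t h =
      algebraMap (MvPolynomial ι κ ⧸ P) (FractionRing (MvPolynomial ι κ ⧸ P)) (Ideal.Quotient.mk P h) := by
    intro h
    have : (aeval t : MvPolynomial ι κ →ₐ[κ] FractionRing (MvPolynomial ι κ ⧸ P)) =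
        (IsScalarTower.toAlgHom κ (MvPolynomial ι κ ⧸ P) (FractionRing (MvPolynomial ι κ ⧸ P))).comp
          (Ideal.Quotient.mkₐ κ P) := by
      apply MvPolynomial.algHom_ext
      intro i
      rw [aeval_X]
      rfl
    rw [this]
    rfl
  have hinj : Function.Injective (algebraMap (MvPolynomial ι κ ⧸ P) (FractionRing (MvPolynomial ι κ ⧸ P))) :=
    IsFractionRing.injective _ _
  have hg0 : aeval t g ≠ 0 := by
    rw [ht]
    intro h
    apply hg
    rw [← Ideal.Quotient.eq_zero_iff_mem]
    exact hinj (by rw [h, map_zero])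
  obtain ⟨r, f, D, h1, h2, h3⟩ := main2 κ ι (FractionRing (MvPolynomial ι κ ⧸ P)) t g hg0 hcon
  refine ⟨r, f, D, h1, h2, fun c y hf hD => ?_⟩
  obtain ⟨x, hx1, hx2⟩ := h3 c y hf hD
  refine ⟨x, fun h hh => hx1 h ?_, hx2⟩
  rw [ht, Ideal.Quotient.eq_zero_iff_mem.2 hh, map_zero]

end Pool.Agent.Q210.TL
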